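import Pool.Agent.H7.KQ.Stmts

/-! Row EXC of board `kq` (helper78): the exchange inequality. -/

set_option autoImplicit false

open Finset

namespace Pool.KQ

open Pool.Agent.H23.KT Pool.Agent.H46.KW

namespace EXCaux

lemma cc_mono {V : Type} (G : SimpleGraph V) (p : ℕ) {X H : Finset V} (h : X ⊆ H) (j : ℕ)
    (u : V) : cc G p X j u ≤ cc G p H j u := by
  classical
  unfold cc
  refine card_le_card ?_
  intro K hK
  rw [mem_filter] at hK ⊢
  refine ⟨?_, hK.2⟩
  have h1 := (mem_clq G).1 hK.1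
  exact (mem_clq G).2 ⟨h1.1.trans h, h1.2⟩

lemma un_sub {V : Type} [DecidableEq V] {G : SimpleGraph V} {p a : ℕ} {e C : ℝ} {W : Finset V}
    {P : Fin (p + 3) → Finset V} {U : Finset V} (h : Str G p a e C W P U) : un P ⊆ W := by
  intro x hx
  unfold un at hx
  rw [mem_biUnion] at hx
  obtain ⟨i, _, hi⟩ := hx
  exact (h.cov x).2 (Or.inr ⟨i, hi⟩)

lemma U_sub {V : Type} [DecidableEq V] {G : SimpleGraph V} {p a : ℕ} {e C : ℝ} {W : Finset V}
    {P : Fin (p + 3) → Finset V} {U : Finset V} (h : Str G p a e C W P U) : U ⊆ W := by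
  intro x hx
  exact (h.cov x).2 (Or.inl hx)

lemma nb_union {V : Type} [DecidableEq V] (G : SimpleGraph V) (X Y : Finset V) (u : V) :
    nb G (X ∪ Y) u = nb G X u ∪ nb G Y u := by
  ext y
  simp only [mem_nb, mem_union]
  tauto

lemma e1_pos (p : ℕ) : 0 < e1 p := by
  unfold e1
  positivity

lemma e1_le_one (p : ℕ) : e1 p ≤ 1 := by
  unfold e1
  rw [div_le_one (by positivity)]
  have h1 : (1:ℝ) ≤ (p:ℝ) + 3 := by
    have := Nat.cast_nonneg (α := ℝ) p
    linarith
  have h2 : (1:ℝ) ≤ ((p:ℝ) + 3) ^ 3 := one_le_pow₀ h1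
  linarith

lemma gam_le (p : ℕ) : gam p ≤ 1 / 2 := by
  unfold gam
  have h0 := Nat.cast_nonneg (α := ℝ) p
  rw [div_le_div_iff₀ (by positivity) (by norm_num)]
  linarith

lemma un_card {V : Type} [DecidableEq V] {G : SimpleGraph V} {p a : ℕ} {e C : ℝ} {W : Finset V}
    {P : Fin (p + 3) → Finset V} {U : Finset V} (h : Str G p a e C W P U) (he : e ≤ 1) :
    (un P).card ≤ 2 * (p + 3) * a := by
  have h1 : (un P).card ≤ ∑ i, (P i).card := by
    unfold un
    exact card_biUnion_le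
  have h2 : ((∑ i, (P i).card : ℕ) : ℝ) ≤ ∑ i : Fin (p + 3), (2 * a : ℝ) := by
    push_cast
    refine sum_le_sum fun i _ => ?_
    refine (h.hi i).trans ?_
    have h0 := Nat.cast_nonneg (α := ℝ) a
    nlinarith
  rw [sum_const, card_univ, Fintype.card_fin, nsmul_eq_mul] at h2
  have h3 : ((∑ i, (P i).card : ℕ) : ℝ) ≤ ((2 * (p + 3) * a : ℕ) : ℝ) := by
    refine h2.trans (le_of_eq ?_)
    push_cast
    ring
  exact h1.trans (by exact_mod_cast h3)

end EXCaux

open EXCaux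

theorem exc (hCSC : CSCStmt) (hEXT : EXTStmt) (hKBD : KBDStmt) (hSLK : SLKStmt) : EXCStmt := by
  intro p
  obtain ⟨η, ec, hη0, hη4, hec, hcsc⟩ := hCSC p
  obtain ⟨es, hes, hslk⟩ := hSLK p
  refine ⟨min (min ec es) (e1 p), lt_min (lt_min hec hes) (e1_pos p), min_le_right _ _, ?_⟩
  intro r C
  obtain ⟨a1, ha1⟩ := hcsc r C
  obtain ⟨a2, ha2⟩ := hEXT p C
  obtain ⟨a3, ha3⟩ := hslk C
  set cN : ℕ := ⌊C⌋₊ with hcN
  set m : ℝ := min η (1 / 8) with hm
  have hm0 : 0 < m := lt_min hη0 (by norm_num)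
  have hm1 : m ≤ η := min_le_left _ _
  have hm2 : m ≤ 1 / 8 := min_le_right _ _
  set D : ℝ := 2 ^ cN * (3 * ((p:ℝ) + 3)) ^ p with hD
  have hD0 : 0 < D := by positivity
  have he1 := e1_pos p
  obtain ⟨a4, ha4⟩ := exists_nat_ge (4 * cN * ((p:ℝ) + 2) / m)
  obtain ⟨a5, ha5⟩ := exists_nat_ge (128 * D / e1 p)
  refine ⟨a1 + a2 + a3 + a4 + a5 + r + 1, ?_⟩
  intro a ha V hV G e W P U hS he0 hee hCB u hu U' hU' huU'
  have hec' : e ≤ ec := hee.trans ((min_le_left _ _).trans (min_le_left _ _))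
  have hes' : e ≤ es := hee.trans ((min_le_left _ _).trans (min_le_right _ _))
  have hee1 : e ≤ e1 p := hee.trans (min_le_right _ _)
  have hC1 := ha1 a (by omega) G e W P U hS he0 hec' hCB
  obtain ⟨hC2, _⟩ := hC1 u hu
  have hE2 := (ha2 a (by omega) G e W P U hS hee1 hCB).2 u hu
  have har : (r:ℝ) ≤ a := by exact_mod_cast (by omega : r ≤ a)
  have ha1' : (1:ℝ) ≤ a := by exact_mod_cast (by omega : 1 ≤ a)
  have ha0 : (0:ℝ) < a := by linarith
  have hXW : un P ⊆ W := un_sub hS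
  have hHW : un P ∪ U' ⊆ W := union_subset hXW (hU'.trans (U_sub hS))
  have hzyk : (kc G (un P ∪ U') (p + 3) : ℝ) ≤ bal (p + 3) (un P ∪ U').card := by
    exact_mod_cast zyk (G := G) (p + 2) (un P ∪ U') (hCB.mono hHW)
  have hc2 : (cc G p (un P) (p + 2) u : ℝ) ≤ cc G p (un P ∪ U') (p + 2) u := by
    exact_mod_cast cc_mono G p subset_union_left (p + 2) u
  have hc1 : (cc G p (un P) (p + 1) u : ℝ) ≤ cc G p (un P ∪ U') (p + 1) u := by
    exact_mod_cast cc_mono G p subset_union_left (p + 1) u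
  have hg := gam_le p
  have hc20 : (0:ℝ) ≤ cc G p (un P) (p + 2) u := Nat.cast_nonneg _
  have hc10 : (0:ℝ) ≤ cc G p (un P) (p + 1) u := Nat.cast_nonneg _
  rcases U'.eq_empty_or_nonempty with h0 | hne
  · subst h0
    rw [union_empty] at hzyk ⊢
    refine hC2.trans ?_
    nlinarith
  · have hsl := ha3 a (by omega) G e W P U hS he0 hes' hCB (fun w hw => (hC1 w hw).2) U' hU' hne
    have hkbd := hKBD G (nb G (un P) u) (nb G U' u) p
    rw [← nb_union] at hkbd
    have hB : (nb G U' u).card ≤ cN := by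
      rw [hcN]
      refine Nat.le_floor ?_
      refine le_trans ?_ hS.cU
      exact_mod_cast (card_le_card (nb_subset G U' u)).trans (card_le_card hU')
    have hA : (nb G (un P) u).card + 1 ≤ 3 * (p + 3) * a := by
      have h1 := (card_le_card (nb_subset G (un P) u)).trans
        (un_card hS (hee1.trans (e1_le_one p)))
      have h2 : 1 ≤ (p + 3) * a := Nat.mul_pos (by omega) (by omega)
      nlinarith
    have hif : (if nb G U' u = ∅ then 0 else
        2 ^ (nb G U' u).card * ((nb G (un P) u).card + 1) ^ p) ≤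
        2 ^ cN * (3 * (p + 3) * a) ^ p := by
      split_ifs
      · exact Nat.zero_le _
      · exact Nat.mul_le_mul (Nat.pow_le_pow_right (by norm_num) hB)
          (Nat.pow_le_pow_left hA p)
    have hk : kc G (nb G (un P ∪ U') u) (p + 2) ≤ kc G (nb G (un P) u) (p + 2) +
        cN * kc G (nb G (un P) u) (p + 1) + 2 ^ cN * (3 * (p + 3) * a) ^ p := by
      refine hkbd.trans ?_
      exact Nat.add_le_add (Nat.add_le_add_left (Nat.mul_le_mul_right _ hB) _) hif
    have hkR : (kc G (nb G (un P ∪ U') u) (p + 2) : ℝ) ≤ kc G (nb G (un P) u) (p + 2) +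
        cN * kc G (nb G (un P) u) (p + 1) + D * (a:ℝ) ^ p := by
      have h1 : (kc G (nb G (un P ∪ U') u) (p + 2) : ℝ) ≤
          ((kc G (nb G (un P) u) (p + 2) + cN * kc G (nb G (un P) u) (p + 1) +
            2 ^ cN * (3 * (p + 3) * a) ^ p : ℕ) : ℝ) := by exact_mod_cast hk
      refine h1.trans (le_of_eq ?_)
      push_cast
      rw [hD, mul_pow (3 * ((p:ℝ) + 3)) (a:ℝ) p]
      ring
    set k2 : ℝ := (kc G (nb G (un P) u) (p + 2) : ℝ) with hk2
    set k1 : ℝ := (kc G (nb G (un P) u) (p + 1) : ℝ) with hk1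
    set c2 : ℝ := (cc G p (un P) (p + 2) u : ℝ) with hc2d
    set c1 : ℝ := (cc G p (un P) (p + 1) u : ℝ) with hc1d
    have hk10 : 0 ≤ k1 := Nat.cast_nonneg _
    have hcN0 : (0:ℝ) ≤ cN := Nat.cast_nonneg _
    have hr0 : (0:ℝ) ≤ r := Nat.cast_nonneg _
    -- second term
    have hma : 4 * (cN:ℝ) * ((p:ℝ) + 2) ≤ m * a := by
      have h1 : (a4:ℝ) ≤ a := by exact_mod_cast (by omega : a4 ≤ a)
      have h2 := ha4.trans h1
      rw [div_le_iff₀ hm0] at h2
      linarith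
    have hii : ((a:ℝ) + r) * (cN * k1) ≤ m * (c2 + c1) := by
      have h1 : ((a:ℝ) + r) * (cN * k1) ≤ 2 * a * (cN * k1) :=
        mul_le_mul_of_nonneg_right (by linarith) (by positivity)
      refine h1.trans ?_
      have h2 : a * (2 * a * (cN * k1)) ≤ a * (m * (c2 + c1)) := by
        have h3 : a * (2 * a * (cN * k1)) = 2 * cN * (k1 * (a:ℝ) ^ 2) := by ring
        rw [h3]
        have h4 : 2 * (cN:ℝ) * (k1 * (a:ℝ) ^ 2) ≤ 2 * cN * (2 * (p + 2) * (c2 + c1)) :=
          mul_le_mul_of_nonneg_left hE2 (by positivity)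
        refine h4.trans ?_
        have h5 : 2 * (cN:ℝ) * (2 * (p + 2) * (c2 + c1)) =
            (4 * (cN:ℝ) * ((p:ℝ) + 2)) * (c2 + c1) := by ring
        rw [h5]
        refine (mul_le_mul_of_nonneg_right hma (by positivity)).trans (le_of_eq ?_)
        ring
      exact le_of_mul_le_mul_left h2 ha0
    -- third term
    have hDa : 2 * D ≤ e1 p / 64 * a := by
      have h1 : (a5:ℝ) ≤ a := by exact_mod_cast (by omega : a5 ≤ a)
      have h2 := ha5.trans h1
      rw [div_le_iff₀ he1] at h2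
      linarith
    have hiii : ((a:ℝ) + r) * (D * (a:ℝ) ^ p) ≤ e1 p / 64 * (a:ℝ) ^ (p + 2) := by
      have h1 : ((a:ℝ) + r) * (D * (a:ℝ) ^ p) ≤ 2 * a * (D * (a:ℝ) ^ p) :=
        mul_le_mul_of_nonneg_right (by linarith) (by positivity)
      refine h1.trans ?_
      have h2 : 2 * a * (D * (a:ℝ) ^ p) = (2 * D) * (a:ℝ) ^ (p + 1) := by ring
      rw [h2]
      refine (mul_le_mul_of_nonneg_right hDa (by positivity)).trans (le_of_eq ?_)
      ring
    have htot : ((a:ℝ) + r) * kc G (nb G (un P ∪ U') u) (p + 2) ≤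
        ((a:ℝ) + r) * k2 + ((a:ℝ) + r) * (cN * k1) + ((a:ℝ) + r) * (D * (a:ℝ) ^ p) := by
      refine (mul_le_mul_of_nonneg_left hkR (by positivity)).trans (le_of_eq ?_)
      ring
    have h7 : m * c2 ≤ η * c2 := mul_le_mul_of_nonneg_right hm1 hc20
    have h8 : m * c1 ≤ 1 / 8 * c1 := mul_le_mul_of_nonneg_right hm2 hc10
    have h9 : (1 - gam p) * c1 ≤ (1 - gam p) * (cc G p (un P ∪ U') (p + 1) u : ℝ) :=
      mul_le_mul_of_nonneg_left hc1 (by linarith)
    have h10 : 3 / 8 * c1 ≤ (1 - gam p) * c1 := mul_le_mul_of_nonneg_right (by linarith) hc10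
    nlinarith
end Pool.KQ
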